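import Mathlib
import Pool.Agent.N375.RF.Stm

/-!
# Project RF, page MP_552896_co: attaching one leaf (helper833 for helper375)
-/

set_option autoImplicit false

namespace Pool.Agent.N833.RF

open Finset Classical
open Pool.Agent.N375.RF

noncomputable section

/-- attach to the graph `G` the new vertex `u`, adjacent to the vertex `w` of `G` only -/
def att {n : ℕ} (G : SimpleGraph (Fin n)) (u : Fin (n + 1)) (w : Fin n) :
    SimpleGraph (Fin (n + 1)) where
  Adj x y := (∃ a b, x = u.succAbove a ∧ y = u.succAbove b ∧ G.Adj a b) ∨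
    (x = u ∧ y = u.succAbove w) ∨ (y = u ∧ x = u.succAbove w)
  symm := ⟨by
    rintro x y (⟨a, b, h1, h2, h3⟩ | ⟨h1, h2⟩ | ⟨h1, h2⟩)
    · exact Or.inl ⟨b, a, h2, h1, h3.symm⟩
    · exact Or.inr (Or.inr ⟨h1, h2⟩)
    · exact Or.inr (Or.inl ⟨h1, h2⟩)⟩
  loopless := ⟨by
    rintro x (⟨a, b, h1, h2, h3⟩ | ⟨h1, h2⟩ | ⟨h1, h2⟩)
    · rw [h1] at h2
      have := Fin.succAbove_right_injective h2
      subst this
      exact h3.ne rfl
    · rw [h1] at h2
      exact Fin.succAbove_ne u w h2.symm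
    · rw [h1] at h2
      exact Fin.succAbove_ne u w h2.symm⟩

lemma att_adj_u {n : ℕ} (G : SimpleGraph (Fin n)) (u : Fin (n + 1)) (w : Fin n)
    (y : Fin (n + 1)) : (att G u w).Adj u y ↔ y = u.succAbove w := by
  constructor
  · rintro (⟨a, b, h1, h2, h3⟩ | ⟨h1, h2⟩ | ⟨h1, h2⟩)
    · exact absurd h1.symm (Fin.succAbove_ne u a)
    · exact h2
    · exact absurd h2.symm (Fin.succAbove_ne u w)
  · intro h
    exact Or.inr (Or.inl ⟨rfl, h⟩)

lemma att_adj_succ {n : ℕ} (G : SimpleGraph (Fin n)) (u : Fin (n + 1)) (w : Fin n)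
    (a b : Fin n) : (att G u w).Adj (u.succAbove a) (u.succAbove b) ↔ G.Adj a b := by
  constructor
  · rintro (⟨a', b', h1, h2, h3⟩ | ⟨h1, h2⟩ | ⟨h1, h2⟩)
    · rw [Fin.succAbove_right_injective h1, Fin.succAbove_right_injective h2]
      exact h3
    · exact absurd h1 (Fin.succAbove_ne u a)
    · exact absurd h1 (Fin.succAbove_ne u b)
  · intro h
    exact Or.inl ⟨a, b, rfl, rfl, h⟩

lemma att_comap {n : ℕ} (G : SimpleGraph (Fin n)) (u : Fin (n + 1)) (w : Fin n) :
    (att G u w).comap u.succAbove = G := by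
  ext a b
  rw [SimpleGraph.comap_adj, att_adj_succ]

lemma att_uniq {n : ℕ} (G : SimpleGraph (Fin n)) (u : Fin (n + 1)) (w : Fin n) :
    ∃! y, (att G u w).Adj u y :=
  ⟨u.succAbove w, (att_adj_u G u w _).2 rfl, fun y hy => (att_adj_u G u w y).1 hy⟩

lemma endv_att {n : ℕ} (G : SimpleGraph (Fin n)) (u : Fin (n + 1)) (w : Fin n) :
    endv (att G u w) ⊆ {u, u.succAbove w} ∪ (endv G).image u.succAbove := by
  intro x hx
  rw [endv, mem_filter] at hx
  obtain ⟨-, y, hy, huni⟩ := hx
  by_cases hxu : x = u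
  · rw [mem_union]
    left
    rw [hxu]
    exact mem_insert_self _ _
  obtain ⟨a, rfl⟩ := Fin.exists_succAbove_eq hxu
  by_cases haw : a = w
  · rw [mem_union, haw]
    left
    exact mem_insert_of_mem (mem_singleton_self _)
  rw [mem_union]
  right
  rw [mem_image]
  refine ⟨a, ?_, rfl⟩
  rw [endv, mem_filter]
  refine ⟨mem_univ _, ?_⟩
  have hyu : y ≠ u := by
    rintro rfl
    have h1 := (att_adj_u G y w _).1 hy.symm
    exact haw (Fin.succAbove_right_injective h1)
  obtain ⟨b, rfl⟩ := Fin.exists_succAbove_eq hyu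
  refine ⟨b, (att_adj_succ G u w a b).1 hy, fun c hc => ?_⟩
  have := huni (u.succAbove c) ((att_adj_succ G u w a c).2 hc)
  exact Fin.succAbove_right_injective this

lemma card_endv_att {n : ℕ} (G : SimpleGraph (Fin n)) (u : Fin (n + 1)) (w : Fin n) :
    (endv (att G u w)).card ≤ (endv G).card + 2 := by
  calc (endv (att G u w)).card ≤ ({u, u.succAbove w} ∪ (endv G).image u.succAbove).card :=
        card_le_card (endv_att G u w)
    _ ≤ ({u, u.succAbove w} : Finset (Fin (n + 1))).card + ((endv G).image u.succAbove).card :=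
        card_union_le _ _
    _ ≤ 2 + (endv G).card := Nat.add_le_add card_le_two card_image_le
    _ = (endv G).card + 2 := by ring

lemma ncard_eq {α : Type} (s : Set α) (F : Finset α) (h : ∀ x, x ∈ F ↔ x ∈ s) :
    s.ncard = F.card := by
  rw [← Set.ncard_coe_finset]
  congr 1
  ext x
  rw [mem_coe]
  exact (h x).symm

theorem leafStep : StLeafStep := by
  intro P hP n m
  obtain ⟨A, hA'⟩ : ∃ A : Finset (SimpleGraph (Fin n)), A = (univ : Finset _).filter
    (fun G => G ∈ P n ∧ (endv G).card < m) := ⟨_, rfl⟩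
  obtain ⟨B, hB'⟩ : ∃ B : Finset (SimpleGraph (Fin (n + 1))), B = (univ : Finset _).filter
    (fun G => G ∈ P (n + 1) ∧ (endv G).card < m + 2) := ⟨_, rfl⟩
  have hA : ∀ G, G ∈ A ↔ G ∈ P n ∧ (endv G).card < m := by
    intro G
    rw [hA', mem_filter]
    simp only [mem_univ, true_and]
  have hB : ∀ G, G ∈ B ↔ G ∈ P (n + 1) ∧ (endv G).card < m + 2 := by
    intro G
    rw [hB', mem_filter]
    simp only [mem_univ, true_and]
  rw [ncard_eq _ A (fun G => by rw [hA]; rfl), ncard_eq _ B (fun G => by rw [hB]; rfl)]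
  have h1 : (A ×ˢ (univ : Finset (Fin (n + 1) × Fin n))).card = A.card * ((n + 1) * n) := by
    rw [card_product, card_univ, Fintype.card_prod, Fintype.card_fin, Fintype.card_fin]
  have h2 : (B.sigma (fun G' => endv G')).card ≤ (m + 1) * B.card := by
    rw [card_sigma]
    calc ∑ G' ∈ B, (endv G').card ≤ ∑ _G' ∈ B, (m + 1) := by
          apply sum_le_sum
          intro G' hG'
          rw [hB] at hG'
          omega
      _ = (m + 1) * B.card := by rw [sum_const, smul_eq_mul, mul_comm]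
  rw [← h1]
  refine le_trans ?_ h2
  refine card_le_card_of_injOn (fun t => ⟨att t.1 t.2.1 t.2.2, t.2.1⟩) ?_ ?_
  · rintro ⟨G, u, w⟩ ht
    rw [mem_coe, mem_product, hA] at ht
    obtain ⟨⟨hG, hc⟩, -⟩ := ht
    rw [mem_coe, mem_sigma, hB]
    have hu := att_uniq G u w
    refine ⟨⟨?_, ?_⟩, ?_⟩
    · have := hP.2 n (att G u w) u hu
      rw [att_comap] at this
      exact this.2 hG
    · have := card_endv_att G u w
      simp only at hc
      show (endv (att G u w)).card < m + 2
      omega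
    · show u ∈ endv (att G u w)
      rw [endv, mem_filter]
      exact ⟨mem_univ _, hu⟩
  · rintro ⟨G, u, w⟩ _ ⟨G', u', w'⟩ _ h
    simp only [Sigma.mk.injEq, heq_eq_eq] at h
    obtain ⟨h3, h4⟩ := h
    subst h4
    have h5 : G = G' := by
      rw [← att_comap G u w, ← att_comap G' u w', h3]
    have h6 : w = w' := by
      have h7 : (att G' u w').Adj u (u.succAbove w) := by
        rw [← h3]
        exact (att_adj_u G u w _).2 rfl
      exact Fin.succAbove_right_injective ((att_adj_u G' u w' _).1 h7)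
    rw [h5, h6]

end

end Pool.Agent.N833.RF
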